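import Pool.Agent.W2helper32.LP.Stm
import Pool.Agent.W2helper32.LP.STAT
import Pool.Agent.W2helper92.LP.INV
import Pool.Agent.W2helper98.LP.IFT
import Pool.Agent.W2helper71.LP.GEN

/-!
# MP_27dab6_co: generic-radii disk packings for planar graphs built by Henneberg I steps and
exchange of blocks

`Built S G` (the class of graphs): the single edge; add a new vertex joined to two ARBITRARY
(not necessarily adjacent) old vertices (Henneberg step I); exchange a block `B` (a built graph on
a subset `U` of the vertices) for another built graph `B'` on `U`. All built graphs are Laman.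
They contain the 2-trees (step I with adjacent old vertices), all 2-degenerate Laman graphs,
and are closed under Henneberg II steps inside triangles, 2-sums, ...

Planarity is used in the form of Koebe's theorem: `G` is the contact graph of SOME disk packing.
-/

set_option autoImplicit false

namespace Pool.Agent.Results.MP_27dab6_co.BuiltGraphs

open Pool.Agent.W2helper32.LP Filter Topology

/-- The disks with centres `c v` and radii `r v` form a disk packing (positive radii, pairwise
disjoint interiors) whose contact graph is exactly `G`. -/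
def PackingWithContactGraph {V : Type} (G : SimpleGraph V)
    (c : V → EuclideanSpace ℝ (Fin 2)) (r : V → ℝ) : Prop :=
  (∀ v, 0 < r v) ∧ ∀ u v : V, u ≠ v →
    r u + r v ≤ dist (c u) (c v) ∧ (G.Adj u v ↔ dist (c u) (c v) = r u + r v)

/-- Planarity, in the form of Koebe's theorem: `G` is the contact graph of some disk packing. -/
def IsCoinGraph {V : Type} (G : SimpleGraph V) : Prop :=
  ∃ (c : V → EuclideanSpace ℝ (Fin 2)) (r : V → ℝ), PackingWithContactGraph G c r

theorem dist_sq (p q : EuclideanSpace ℝ (Fin 2)) :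
    dist p q ^ 2 = (p 0 - q 0) ^ 2 + (p 1 - q 1) ^ 2 := by
  rw [EuclideanSpace.dist_eq, Real.sq_sqrt (by positivity)]
  simp [Fin.sum_univ_two, Real.dist_eq, sq_abs]

theorem toXY {V : Type} {G : SimpleGraph V} {c : V → EuclideanSpace ℝ (Fin 2)} {r : V → ℝ}
    (h : PackingWithContactGraph G c r) : PackXY G (fun v => c v 0) (fun v => c v 1) r := by
  refine ⟨h.1, fun u v huv => ?_⟩
  have h0 : 0 < r u + r v := add_pos (h.1 u) (h.1 v)
  obtain ⟨h1, h2⟩ := h.2 u v huv
  have hs := dist_sq (c u) (c v)
  constructor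
  · show (r u + r v) ^ 2 ≤ (c u 0 - c v 0) ^ 2 + (c u 1 - c v 1) ^ 2
    rw [← hs]; exact pow_le_pow_left₀ h0.le h1 2
  · rw [h2]
    show _ ↔ (c u 0 - c v 0) ^ 2 + (c u 1 - c v 1) ^ 2 = (r u + r v) ^ 2
    rw [← hs]
    exact ⟨fun h => by rw [h], fun h => by
      exact (pow_left_inj₀ dist_nonneg h0.le two_ne_zero).1 h⟩

theorem ofXY {V : Type} {G : SimpleGraph V} {x y r : V → ℝ} (h : PackXY G x y r) :
    PackingWithContactGraph G (fun v => !₂[x v, y v]) r := by
  refine ⟨h.1, fun u v huv => ?_⟩
  have h0 : 0 < r u + r v := add_pos (h.1 u) (h.1 v)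
  obtain ⟨h1, h2⟩ := h.2 u v huv
  have hs := dist_sq (!₂[x u, y u]) (!₂[x v, y v])
  have hs' : dist (!₂[x u, y u]) (!₂[x v, y v]) ^ 2 = (x u - x v) ^ 2 + (y u - y v) ^ 2 := by
    rw [hs]; simp
  constructor
  · refine (pow_le_pow_iff_left₀ h0.le dist_nonneg two_ne_zero).1 ?_
    rw [hs']; exact h1
  · rw [h2, ← hs']
    exact (pow_left_inj₀ dist_nonneg h0.le two_ne_zero)

/-- Let `H` be a built graph (Henneberg I steps with arbitrary pairs, exchange of blocks) on the
finite vertex set `V` and let `G` be `H` itself or any spanning subgraph of `H`. If `G` is planar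
(a contact graph of some disk packing, Koebe), then the radii vectors of the disk packings with
contact graph exactly `G` contain a nonempty open set `O`; in particular there is a disk packing
with algebraically independent radii whose contact graph is `G`. -/
theorem result (V : Type) [Fintype V] [DecidableEq V] (G H : SimpleGraph V)
    (hH : Built Finset.univ H) (hGH : G ≤ H) (hG : IsCoinGraph G) :
    ∃ O : Set (V → ℝ), IsOpen O ∧
      (∀ r ∈ O, ∃ c : V → EuclideanSpace ℝ (Fin 2), PackingWithContactGraph G c r) ∧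
      ∃ r ∈ O, AlgebraicIndependent ℚ r := by
  obtain ⟨c, r, hc⟩ := hG
  obtain ⟨x, y, r', hp, hgen⟩ := Pool.Agent.W2helper92.LP.p_inv V G _ _ r (toXY hc)
  have hd : ∀ i j, i ≠ j → x i ≠ x j ∨ y i ≠ y j := by
    intro i j hij
    by_contra hcon
    push Not at hcon
    have h1 := (hp.2 i j hij).1
    rw [hcon.1, hcon.2] at h1
    have h2 := add_pos (hp.1 i) (hp.1 j)
    nlinarith
  have hind : Indep G x y := by
    intro w hw1 hw2 hw3 hw4
    exact p_stat V Finset.univ H x y hH hgen hd w hw1
      (fun i j hij => hw2 i j fun h => hij (hGH h)) hw3 hw4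
  have hev := Pool.Agent.W2helper98.LP.p_ift V G x y r' hp hind
  obtain ⟨O, hO1, hO2, hO3⟩ := mem_nhds_iff.1 hev
  obtain ⟨s, hs, hsa⟩ := Pool.Agent.W2helper71.LP.p_gen V r' O (hO2.mem_nhds hO3)
  refine ⟨O, hO2, ?_, s, hs, hsa⟩
  intro t ht
  obtain ⟨x', y', h'⟩ := hO1 ht
  exact ⟨_, ofXY h'⟩

end Pool.Agent.Results.MP_27dab6_co.BuiltGraphs
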